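import Pool.Agent.P8H33.QC.Stm

/-! # QC/GRA (helper45): a quartic with irreducible resolvent cubic has Galois group containing `A₄` -/

set_option autoImplicit false

open Polynomial

namespace Pool.Agent.P8H45.QC

variable {K L : Type} [Field K] [Field L] [Algebra K L] [CharZero K] [IsAlgClosed L] [Algebra.IsAlgebraic K L]

/-- the index of the stabiliser of a zero of an irreducible polynomial -/
theorem index_stab {f : K[X]} (hf : Irreducible f) {x : L} (hx : aeval x f = 0) :
    (MulAction.stabilizer Gal(L/K) x).index = f.natDegree := by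
  have hI : IsIntegral K x := Algebra.IsIntegral.isIntegral x
  have : IsAlgClosure K L := ⟨inferInstance, inferInstance⟩
  have : Normal K L := IsAlgClosure.normal K L
  have hdeg : (minpoly K x).natDegree = f.natDegree := by
    rw [← minpoly.eq_of_irreducible hf hx, natDegree_mul_C]
    exact inv_ne_zero (leadingCoeff_ne_zero.2 hf.ne_zero)
  have horb : MulAction.orbit Gal(L/K) x = (minpoly K x).rootSet L := by
    ext y
    have h1 : IsConjRoot K x y ↔ IsConjRoot K y x := ⟨IsConjRoot.symm, IsConjRoot.symm⟩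
    rw [← isConjRoot_iff_mem_minpoly_rootSet hI, h1, isConjRoot_iff_exists_algEquiv,
      MulAction.mem_orbit_iff]
    rfl
  rw [MulAction.index_stabilizer, horb, ← hdeg, ← Nat.card_coe_set_eq, Nat.card_eq_fintype_card]
  exact card_rootSet_eq_natDegree (minpoly.irreducible hI).separable (IsAlgClosed.splits _)

theorem gra_core (f g : K[X]) (hf : Irreducible f) (hf4 : f.natDegree = 4)
    (hg : Irreducible g) (hg3 : g.natDegree = 3) (α : Fin 4 → L)
    (hα : (f.map (algebraMap K L)).roots = Multiset.map α Finset.univ.val)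
    (hβ : aeval (α 0 * α 1 + α 2 * α 3) g = 0) (π : Equiv.Perm (Fin 4)) (hπ : π ∈ alternatingGroup (Fin 4)) :
    ∃ σ : L ≃ₐ[K] L, ∀ i, σ (α i) = α (π i) := by
  have hmem : ∀ x : L, aeval x f = 0 ↔ ∃ i, α i = x := by
    intro x
    have h1 : x ∈ (f.map (algebraMap K L)).roots ↔ aeval x f = 0 := by
      rw [mem_roots (map_ne_zero hf.ne_zero), IsRoot.def, eval_map_algebraMap]
    rw [← h1, hα, Multiset.mem_map]
    simp only [Finset.mem_val, Finset.mem_univ, true_and]
  have hinj : Function.Injective α := by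
    have h1 : (f.map (algebraMap K L)).roots.Nodup := nodup_roots hf.separable.map
    rw [hα, Multiset.nodup_map_iff_inj_on Finset.univ.nodup] at h1
    intro i j hij
    exact h1 i (Finset.mem_univ_val _) j (Finset.mem_univ_val _) hij
  have hperm : ∀ σ : L ≃ₐ[K] L, ∃ τ : Equiv.Perm (Fin 4), ∀ i, α (τ i) = σ (α i) := by
    intro σ
    have h1 : ∀ i, ∃ j, α j = σ (α i) := by
      intro i
      rw [← hmem]
      have : aeval (σ (α i)) f = σ (aeval (α i) f) := by
        rw [← AlgEquiv.coe_toAlgHom σ, aeval_algHom_apply]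
      rw [this, (hmem _).2 ⟨i, rfl⟩, map_zero]
    choose j hj using h1
    have hji : Function.Injective j := by
      intro a b hab
      apply hinj
      apply σ.injective
      rw [← hj, ← hj, hab]
    exact ⟨Equiv.ofBijective j (Finite.injective_iff_bijective.1 hji), hj⟩
  choose ψ hψ using hperm
  let Ψ : (L ≃ₐ[K] L) →* Equiv.Perm (Fin 4) := MonoidHom.mk' ψ (by
    intro σ τ
    ext1 i
    apply hinj
    rw [hψ]
    show σ (τ (α i)) = α (ψ σ (ψ τ i))
    rw [hψ, hψ])
  have hΨ : ∀ σ i, α (Ψ σ i) = σ (α i) := hψ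
  have hker : ∀ σ ∈ Ψ.ker, ∀ i, σ (α i) = α i := by
    intro σ hσ i
    rw [← hΨ, MonoidHom.mem_ker.1 hσ]
    rfl
  have h4 : 4 ∣ Nat.card Ψ.range := by
    have h1 := index_stab hf ((hmem (α 0)).2 ⟨0, rfl⟩)
    rw [hf4] at h1
    have h2 : (MulAction.stabilizer Gal(L/K) (α 0)).index ∣ Ψ.ker.index :=
      Subgroup.index_dvd_of_le fun σ hσ => hker σ hσ 0
    rwa [h1, Subgroup.index_ker] at h2
  have h3 : 3 ∣ Nat.card Ψ.range := by
    have h1 := index_stab hg hβ
    rw [hg3] at h1
    have h2 : (MulAction.stabilizer Gal(L/K) (α 0 * α 1 + α 2 * α 3)).index ∣ Ψ.ker.index := by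
      refine Subgroup.index_dvd_of_le fun σ hσ => ?_
      show σ (α 0 * α 1 + α 2 * α 3) = _
      rw [map_add, map_mul, map_mul, hker σ hσ, hker σ hσ, hker σ hσ, hker σ hσ]
    rwa [h1, Subgroup.index_ker] at h2
  have h12 : 12 ∣ Nat.card Ψ.range := by
    have := Nat.Coprime.mul_dvd_of_dvd_of_dvd (by norm_num : Nat.Coprime 4 3) h4 h3
    simpa using this
  have h24 : Nat.card Ψ.range * Ψ.range.index = 24 := by
    rw [Subgroup.card_mul_index, Nat.card_eq_fintype_card, Fintype.card_perm, Fintype.card_fin]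
    rfl
  have hidx : Ψ.range.index ≤ 2 := by
    obtain ⟨c, hc⟩ := h12
    rw [hc] at h24
    have hc0 : 0 < c := by
      rcases Nat.eq_zero_or_pos c with h | h
      · rw [h] at h24; simp at h24
      · exact h
    nlinarith
  have := Equiv.Perm.alternatingGroup_le_of_index_le_two hidx hπ
  obtain ⟨σ, hσ⟩ := this
  exact ⟨σ, fun i => by rw [← hσ, hΨ]⟩

theorem gra : Pool.Agent.P8H33.QC.S_GRA := by
  intro p _ f g hf hf4 hg hg3 α hα hβ π hπ
  exact gra_core f g hf hf4 hg hg3 α hα hβ π hπ

end Pool.Agent.P8H45.QC
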